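import Pool.Agent.H37.CTL.Stmts
import Pool.Agent.H2.CND.CNG

/-!
# Row T43 of the board `ctl`: a conductor of `SL_3(q)`
-/

set_option autoImplicit false

namespace Pool.CND

open Polynomial

theorem t43_thm (hT41 : S_T41) (hT42 : S_T42) (hT33 : S_T33) (hT34 : S_T34) : S_T43 := by
  intro p k F _ _ _ _ f q hp hcp hf hq hF
  obtain ⟨L, _, _, t, X, G₀, ρ, P, hS3, hC3, ht, hX0, hc⟩ := hT41 p k F f q hp hcp hf hq hF
  obtain ⟨htr, hcond⟩ := hT42 p k F L f q t X G₀ ρ P hp hcp hf hq hF hS3 hC3 ht hX0 hc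
  have hq0 : q ≠ 0 := by
    rw [hq]
    exact pow_ne_zero _ hp.ne_zero
  have hfin : Finite F := Nat.finite_of_card_ne_zero (by rw [hF]; exact hq0)
  have key : ∀ (n : ℕ) (α β : k), n ≠ 0 → α ≠ 0 →
      (0 : Polynomial k) ≠ C α * (Polynomial.X : Polynomial k) ^ n + C β := by
    intro n α β hn hα h
    have h1 := congrArg (fun r : Polynomial k => r.coeff n) h
    simp only [coeff_zero, coeff_add, coeff_C_mul, coeff_X_pow, coeff_C, if_pos, if_neg hn, mul_one,
      add_zero] at h1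
    exact hα h1.symm
  have hirr := hT33 p k F L f q 0 Polynomial.X t X G₀ ρ hp hcp hf hq hF hS3 hC3
    (fun α β hα => by
      have h1 := key 1 α β one_ne_zero hα
      rw [pow_one] at h1
      exact h1)
    (fun α β hα => key q α β hq0 hα)
  have htop : G₀ = ⊤ := hT34 F G₀ hirr htr
  subst htop
  exact cond_mono k _ _ Subgroup.topEquiv ⟨L, _, _, ρ, t, hC3.cov, P, ht, hcond⟩

end Pool.CND
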