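import Pool.Agent.H37.CTL.Stmts

/-!
# Row T60 of the board `ctl`: the lower bound for `SL_3(q)`
-/

set_option autoImplicit false

namespace Pool.CND

theorem t60_thm (hT43 : S_T43) (hT57 : S_T57) (hALL : S_ALL) : S_T60 := by
  intro p k F _ _ _ _ f q hp hp2 hcp hf hq hF
  have hq3 : 3 ≤ q := by
    have h1 : 3 ≤ p := by
      have := hp.two_le
      omega
    rw [hq]
    exact h1.trans (Nat.le_self_pow (by omega) p)
  have hfin : Finite F := Nat.finite_of_card_ne_zero (by rw [hF]; omega)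
  have hfin2 : Finite (Matrix.SpecialLinearGroup (Fin 3) F) :=
    inferInstanceAs (Finite {A : Matrix (Fin 3) (Fin 3) F // A.det = 1})
  obtain ⟨z₂, hz₂⟩ := hALL p k _ _ hp hcp (hT43 p k F f q hp hcp hf hq hF)
  obtain ⟨z₁, hz₁⟩ := hALL p k _ _ hp hcp (hT57 p k F f q hp hp2 hcp hf hq hF)
  obtain ⟨N, hN⟩ : ∃ N, N = NG k (Matrix.SpecialLinearGroup (Fin 3) F) := ⟨_, rfl⟩
  rw [← hN] at hz₁ hz₂ ⊢
  have hqQ : (3 : ℚ) ≤ q := by exact_mod_cast hq3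
  have h1 : ((q : ℚ) * (q - 1)) ≠ 0 := by
    have : 0 < (q : ℚ) * (q - 1) := mul_pos (by linarith) (by linarith)
    exact this.ne'
  have h2 : ((q : ℚ) ^ 2 - 1) ≠ 0 := by
    have : 0 < (q : ℚ) ^ 2 - 1 := by nlinarith
    exact this.ne'
  have e1 : (N : ℤ) * ((q : ℤ) ^ 4 - q ^ 2 - 2 * q + 1) = z₁ * ((q : ℤ) * (q - 1)) := by
    rw [mul_div_assoc', div_eq_iff h1] at hz₁
    exact_mod_cast hz₁
  have e2 : (N : ℤ) * ((q : ℤ) ^ 2 + q + 1) = z₂ * ((q : ℤ) ^ 2 - 1) := by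
    rw [mul_div_assoc', div_eq_iff h2] at hz₂
    exact_mod_cast hz₂
  -- `q ∣ N`
  have d1 : (q : ℤ) ∣ N := by
    have hc : IsCoprime (q : ℤ) ((q : ℤ) ^ 4 - q ^ 2 - 2 * q + 1) :=
      ⟨-((q : ℤ) ^ 3 - q - 2), 1, by ring⟩
    refine hc.dvd_of_dvd_mul_right ⟨z₁ * (q - 1), ?_⟩
    rw [e1]
    ring
  -- `q - 1 ∣ N`
  have d2 : ((q : ℤ) - 1) ∣ N := by
    have hc : IsCoprime ((q : ℤ) - 1) ((q : ℤ) ^ 4 - q ^ 2 - 2 * q + 1) :=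
      ⟨(q : ℤ) ^ 3 + q ^ 2 - 2, -1, by ring⟩
    refine hc.dvd_of_dvd_mul_right ⟨z₁ * q, ?_⟩
    rw [e1]
    ring
  obtain ⟨N', hN'⟩ := d2
  have hq1 : ((q : ℤ) - 1) ≠ 0 := by
    have : (3 : ℤ) ≤ q := by exact_mod_cast hq3
    omega
  have d3 : ((q : ℤ) + 1) ∣ N' := by
    have hc : IsCoprime ((q : ℤ) + 1) ((q : ℤ) ^ 2 + q + 1) := ⟨-(q : ℤ), 1, by ring⟩
    refine hc.dvd_of_dvd_mul_right ⟨z₂, ?_⟩
    apply mul_left_cancel₀ hq1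
    rw [← mul_assoc, ← hN', e2]
    ring
  have d4 : ((q : ℤ) ^ 2 - 1) ∣ (N : ℤ) := by
    obtain ⟨r, hr⟩ := d3
    refine ⟨r, ?_⟩
    rw [hN', hr]
    ring
  have hc : IsCoprime (q : ℤ) ((q : ℤ) ^ 2 - 1) := ⟨(q : ℤ), -1, by ring⟩
  have d5 := hc.mul_dvd d1 d4
  have h3 : 1 ≤ q ^ 2 := Nat.one_le_pow _ _ (by omega)
  rw [← Int.natCast_dvd_natCast]
  push_cast [h3]
  exact d5

end Pool.CND
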